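import Pool.Agent.Helper16.BZ.Stmts

open Finset Filter MeasureTheory Topology
open scoped ComplexConjugate InnerProductSpace

namespace Pool.Agent.Helper16.BZ

open Pool.Agent.Helper16.AZ (T E Op mm Eig PP ST_VDH ST_MSR ST_MRF ST_FPV ST_TLR unitary_norm
  unitary_star)
open Pool.Agent.Helper16.MD (MS PB Am RW Rich)
open UnitAddTorus (mFourier)

theorem asy2_norm_le {d : ℕ} {A : Op d} (hA : A ∈ unitary (Op d)) : ‖A‖ ≤ 1 := by
  refine ContinuousLinearMap.opNorm_le_bound _ zero_le_one fun v => ?_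
  rw [unitary_norm hA v, one_mul]

theorem asy2_co {X : Type} [MetricSpace X] {d : ℕ} (S : X → X) (φ : X → Op d) (t ω : ℝ) (K : ℕ)
    (hφ : ∀ x, φ x ∈ unitary (Op d))
    (h : ∀ x y : X, dist x y ≤ t → ‖φ x - φ y‖ ≤ ω) (x y : X)
    (hd : ∀ n ≤ K, dist (S^[n] x) (S^[n] y) ≤ t) (k : ℕ) (hk : k ≤ K) :
    ‖co S φ k x - co S φ k y‖ ≤ k * ω := by
  induction k with
  | zero => simp
  | succ k ih =>
    have ih' := ih (by omega)
    have h1 : co S φ (k + 1) x - co S φ (k + 1) y =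
        (φ (S^[k] x) - φ (S^[k] y)) * co S φ k x +
        φ (S^[k] y) * (co S φ k x - co S φ k y) := by
      rw [co_succ, co_succ, sub_mul, mul_sub]
      abel
    have h2 : ‖φ (S^[k] x) - φ (S^[k] y)‖ ≤ ω := h _ _ (hd k (by omega))
    have h3 := asy2_norm_le (co_unitary S φ hφ k x)
    have h4 := asy2_norm_le (hφ (S^[k] y))
    rw [h1]
    refine (norm_add_le _ _).trans ?_
    have h5 : ‖(φ (S^[k] x) - φ (S^[k] y)) * co S φ k x‖ ≤ ω := by
      refine (norm_mul_le _ _).trans ?_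
      nlinarith [norm_nonneg (φ (S^[k] x) - φ (S^[k] y)), norm_nonneg (co S φ k x)]
    have h6 : ‖φ (S^[k] y) * (co S φ k x - co S φ k y)‖ ≤ k * ω := by
      refine (norm_mul_le _ _).trans ?_
      nlinarith [norm_nonneg (φ (S^[k] y)), norm_nonneg (co S φ k x - co S φ k y)]
    push_cast
    linarith

theorem asy2_mod {X : Type} [MetricSpace X] {d : ℕ} (S : X → X) (φ : X → Op d) (c : X → E d)
    (t ω ω' V : ℝ) (K k k' : ℕ) (hφ : ∀ x, φ x ∈ unitary (Op d)) (hc : ∀ x, ‖c x‖ ≤ V)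
    (h : ∀ x y : X, dist x y ≤ t → ‖φ x - φ y‖ ≤ ω ∧ ‖c x - c y‖ ≤ ω') (x y : X)
    (hd : ∀ n ≤ K, dist (S^[n] x) (S^[n] y) ≤ t) (hk : k ≤ K) (hk' : k' ≤ K) :
    ‖EE S φ c k k' x - EE S φ c k k' y‖ ≤ 2 * (V * (K * ω * V + ω')) := by
  have h0 := h _ _ (hd 0 (by omega))
  have hω : 0 ≤ ω := (norm_nonneg _).trans h0.1
  have hV : 0 ≤ V := (norm_nonneg _).trans (hc x)
  have key : ∀ k ≤ K, ‖Wk S φ k c x - Wk S φ k c y‖ ≤ K * ω * V + ω' := by
    intro k hk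
    have h1 : Wk S φ k c x - Wk S φ k c y =
        (star (co S φ k x - co S φ k y)) (c (S^[k] x)) +
        (star (co S φ k y)) (c (S^[k] x) - c (S^[k] y)) := by
      unfold Wk
      have h0 : star (co S φ k x - co S φ k y) =
          star (co S φ k x) - star (co S φ k y) := by
        simp only [ContinuousLinearMap.star_eq_adjoint, map_sub]
      rw [h0, _root_.sub_apply, map_sub]
      abel
    rw [h1]
    refine (norm_add_le _ _).trans ?_
    have h2 : ‖(star (co S φ k x - co S φ k y)) (c (S^[k] x))‖ ≤ K * ω * V := by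
      refine (ContinuousLinearMap.le_opNorm _ _).trans ?_
      rw [ContinuousLinearMap.star_eq_adjoint, LinearIsometryEquiv.norm_map]
      have h3 := asy2_co S φ t ω K hφ (fun a b hab => (h a b hab).1) x y hd k hk
      have h4 : (k : ℝ) * ω ≤ K * ω := mul_le_mul_of_nonneg_right (by exact_mod_cast hk) hω
      exact mul_le_mul (h3.trans h4) (hc _) (norm_nonneg _) (by positivity)
    have h3 : ‖(star (co S φ k y)) (c (S^[k] x) - c (S^[k] y))‖ ≤ ω' := by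
      rw [unitary_norm (unitary_star (co_unitary S φ hφ k y))]
      exact (h _ _ (hd k hk)).2
    linarith
  have e1 := key k hk
  have e2 := key k' hk'
  have n1 : ‖Wk S φ k' c x‖ ≤ V := by
    rw [Wk_norm S φ c hφ]; exact hc _
  have n2 : ‖Wk S φ k c y‖ ≤ V := by
    rw [Wk_norm S φ c hφ]; exact hc _
  have h6 : EE S φ c k k' x - EE S φ c k k' y =
      inner ℂ (Wk S φ k c x - Wk S φ k c y) (Wk S φ k' c x) +
      inner ℂ (Wk S φ k c y) (Wk S φ k' c x - Wk S φ k' c y) := by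
    unfold EE
    rw [inner_sub_left, inner_sub_right]
    ring
  rw [h6]
  refine (norm_add_le _ _).trans ?_
  have h7 := norm_inner_le_norm (𝕜 := ℂ) (Wk S φ k c x - Wk S φ k c y) (Wk S φ k' c x)
  have h8 := norm_inner_le_norm (𝕜 := ℂ) (Wk S φ k c y) (Wk S φ k' c x - Wk S φ k' c y)
  have h9 : ‖Wk S φ k c x - Wk S φ k c y‖ * ‖Wk S φ k' c x‖ ≤ (K * ω * V + ω') * V :=
    mul_le_mul e1 n1 (norm_nonneg _) ((norm_nonneg _).trans e1)
  have h10 : ‖Wk S φ k c y‖ * ‖Wk S φ k' c x - Wk S φ k' c y‖ ≤ V * (K * ω * V + ω') :=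
    mul_le_mul n2 e2 (norm_nonneg _) hV
  linarith

theorem asy2_gr (C ε : ℝ) (k H : ℕ) (hC : 1 ≤ C) (hε : 0 < ε) : ∀ᶠ i : ℕ in atTop,
    C * (((H * 2 ^ (i + 1) : ℕ) : ℝ) + 1) ^ k * Real.exp (-ε * 2 ^ i) ≤
      Real.exp (-(ε / 2) * 2 ^ i) := by
  have h2 : Tendsto (fun i : ℕ => (2 : ℝ) ^ i) atTop atTop :=
    tendsto_pow_atTop_atTop_of_one_lt (by norm_num)
  have h3 : Tendsto (fun i : ℕ => ε / 2 * (2 : ℝ) ^ i) atTop atTop :=
    h2.const_mul_atTop (by positivity)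
  have h4 := (Real.tendsto_pow_mul_exp_neg_atTop_nhds_zero k).comp h3
  set B : ℝ := C * (2 * (H : ℝ) + 1) ^ k with hB
  have hB0 : 0 < B := by rw [hB]; positivity
  have h5 : (0 : ℝ) < (ε / 2) ^ k / B := by positivity
  filter_upwards [h4.eventually (gt_mem_nhds h5)] with i hi
  simp only [Function.comp] at hi
  have hu : (1 : ℝ) ≤ 2 ^ i := one_le_pow₀ (by norm_num)
  have h6 : (((H * 2 ^ (i + 1) : ℕ) : ℝ) + 1) ^ k ≤ (2 * (H : ℝ) + 1) ^ k * ((2 : ℝ) ^ i) ^ k := by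
    rw [← mul_pow]
    apply pow_le_pow_left₀ (by positivity)
    push_cast
    rw [pow_succ]
    nlinarith
  have h7 : Real.exp (-ε * 2 ^ i) =
      Real.exp (-(ε / 2 * 2 ^ i)) * Real.exp (-(ε / 2) * 2 ^ i) := by
    rw [← Real.exp_add]
    congr 1
    ring
  have h8 : B * ((2 : ℝ) ^ i) ^ k * Real.exp (-(ε / 2 * 2 ^ i)) ≤ 1 := by
    rw [mul_pow, lt_div_iff₀ hB0] at hi
    have h9 : (0 : ℝ) < (ε / 2) ^ k := by positivity
    by_contra hcon
    push Not at hcon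
    have : (ε / 2) ^ k * 1 < (ε / 2) ^ k * (B * ((2 : ℝ) ^ i) ^ k * Real.exp (-(ε / 2 * 2 ^ i))) :=
      mul_lt_mul_of_pos_left hcon h9
    nlinarith
  rw [h7]
  have h10 : 0 < Real.exp (-(ε / 2) * 2 ^ i) := Real.exp_pos _
  have h11 : 0 < Real.exp (-(ε / 2 * 2 ^ i)) := Real.exp_pos _
  calc C * (((H * 2 ^ (i + 1) : ℕ) : ℝ) + 1) ^ k *
        (Real.exp (-(ε / 2 * 2 ^ i)) * Real.exp (-(ε / 2) * 2 ^ i))
      ≤ C * ((2 * (H : ℝ) + 1) ^ k * ((2 : ℝ) ^ i) ^ k) *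
        (Real.exp (-(ε / 2 * 2 ^ i)) * Real.exp (-(ε / 2) * 2 ^ i)) := by gcongr
    _ = (B * ((2 : ℝ) ^ i) ^ k * Real.exp (-(ε / 2 * 2 ^ i))) * Real.exp (-(ε / 2) * 2 ^ i) := by
        rw [hB]; ring
    _ ≤ 1 * Real.exp (-(ε / 2) * 2 ^ i) := mul_le_mul_of_nonneg_right h8 h10.le
    _ = _ := one_mul _

theorem st_ASY2 : ST_ASY2 := by
  intro X _ _ S d φ c V ε δ H hS hGR hφ hLM hc hcV hε hδ
  obtain ⟨C, k, hC, hGR⟩ := hGR
  set V' : ℝ := max V 1 with hV'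
  have hV1 : 1 ≤ V' := le_max_right _ _
  have hV0 : 0 < V' := by linarith
  have hcV' : ∀ x, ‖c x‖ ≤ V' := fun x => (hcV x).trans (le_max_left _ _)
  set e2 : ℝ := ε * δ / (16 * ((H : ℝ) + 1) * V' ^ 2) with he2
  have he20 : 0 < e2 := by positivity
  obtain ⟨t₀, ht0, ht1, hLMt⟩ := hLM e2 he20
  have huc := CompactSpace.uniformContinuous_of_continuous hc
  rw [Metric.uniformContinuous_iff] at huc
  obtain ⟨δc, hδc0, hδc⟩ := huc (δ / (4 * V')) (by positivity)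
  have h2 : Tendsto (fun i : ℕ => (2 : ℝ) ^ i) atTop atTop :=
    tendsto_pow_atTop_atTop_of_one_lt (by norm_num)
  have h3 : Tendsto (fun i : ℕ => Real.exp (-(ε / 2) * (2 : ℝ) ^ i)) atTop (𝓝 0) := by
    have h4 : Tendsto (fun i : ℕ => -(ε / 2) * (2 : ℝ) ^ i) atTop atBot :=
      h2.const_mul_atTop_of_neg (by linarith)
    exact Real.tendsto_exp_atBot.comp h4
  have ev1 := asy2_gr C ε k H hC hε
  have ev2 := h3.eventually (gt_mem_nhds (lt_min ht0 hδc0))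
  obtain ⟨I₀, hI₀⟩ := eventually_atTop.1 (ev1.and ev2)
  refine ⟨I₀, fun i hi p hp h hh h' hh' x y hxy => ?_⟩
  obtain ⟨hg, ht⟩ := hI₀ i hi
  set t : ℝ := Real.exp (-(ε / 2) * 2 ^ i) with htdef
  have htpos : 0 < t := Real.exp_pos _
  have htt0 : t ≤ t₀ := ht.le.trans (min_le_left _ _)
  have htδ : t < δc := lt_of_lt_of_le ht (min_le_right _ _)
  have hp2 : p ≤ 2 ^ (i + 1) := (mem_Ioc.1 (mem_filter.1 hp).1).2
  have hK : ∀ a, a < H → p * a ≤ H * 2 ^ (i + 1) := fun a ha => by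
    rw [mul_comm H]
    exact Nat.mul_le_mul hp2 ha.le
  have hd : ∀ n ≤ H * 2 ^ (i + 1), dist (S^[n] x) (S^[n] y) ≤ t := by
    intro n hn
    refine (hGR n x y).trans (le_trans ?_ hg)
    have hn' : (n : ℝ) ≤ ((H * 2 ^ (i + 1) : ℕ) : ℝ) := by exact_mod_cast hn
    gcongr
  have hlogt : -Real.log t = ε / 2 * 2 ^ i := by
    rw [htdef, Real.log_exp]; ring
  have h5 := asy2_mod S φ c t (e2 / (ε / 2 * 2 ^ i)) (δ / (4 * V')) V' (H * 2 ^ (i + 1))
    (p * h) (p * h') hφ.2 hcV' (by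
      intro a b hab
      refine ⟨?_, ?_⟩
      · have := hLMt t htpos htt0 a b hab
        rwa [hlogt] at this
      · have := hδc (lt_of_le_of_lt hab htδ)
        rw [dist_eq_norm] at this
        exact this.le) x y hd (hK h hh) (hK h' hh')
  refine h5.trans ?_
  have h6 : ((H * 2 ^ (i + 1) : ℕ) : ℝ) * (e2 / (ε / 2 * 2 ^ i)) ≤ δ / (4 * V' ^ 2) := by
    have h7 : ((H * 2 ^ (i + 1) : ℕ) : ℝ) * (e2 / (ε / 2 * 2 ^ i)) =
        δ / (4 * V' ^ 2) * ((H : ℝ) / (H + 1)) := by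
      rw [he2]
      push_cast
      rw [pow_succ]
      field_simp
      ring
    rw [h7]
    have h8 : (H : ℝ) / (H + 1) ≤ 1 := by
      rw [div_le_one (by positivity)]
      linarith
    calc δ / (4 * V' ^ 2) * ((H : ℝ) / (H + 1)) ≤ δ / (4 * V' ^ 2) * 1 :=
          mul_le_mul_of_nonneg_left h8 (by positivity)
      _ = _ := mul_one _
  calc 2 * (V' * (((H * 2 ^ (i + 1) : ℕ) : ℝ) * (e2 / (ε / 2 * 2 ^ i)) * V' + δ / (4 * V')))
      ≤ 2 * (V' * (δ / (4 * V' ^ 2) * V' + δ / (4 * V'))) := by gcongr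
    _ = δ := by field_simp; ring

end Pool.Agent.Helper16.BZ
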